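import Pool.Agent.Work.MP_31464c_co.Fam

/-!
# MP_31464c_co: graphs whose path odd-cover number exceeds the degree bound

For every `k ≥ 2` and every finite graph `H` with an edge all of whose degrees are even and less than
`2 k`, the disjoint union `G` of the complete graph `K_{2k}` and `H` has
`v_odd(G) / 2 = ⌈(Δ(G) + 1) / 2⌉ = k < p_2(G)`.
-/

set_option autoImplicit false

namespace Pool.Agent.Results.MP_31464c_co.CompletePlusEven

open Pool.Agent.Work.MP_31464c_co
open scoped SimpleGraph

private theorem deg_eq {V : Type} (G : SimpleGraph V) (v : V) [Fintype (G.neighborSet v)] :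
    G.degree v = Nat.card (G.neighborSet v) := by
  rw [Nat.card_eq_fintype_card, SimpleGraph.card_neighborSet_eq_degree]

private theorem card_inl {k : ℕ} {W : Type} (H : SimpleGraph W) (v : Fin (2 * k)) :
    Nat.card (((⊤ : SimpleGraph (Fin (2 * k))) ⊕g H).neighborSet (.inl v)) = 2 * k - 1 := by
  have h : ((⊤ : SimpleGraph (Fin (2 * k))) ⊕g H).neighborSet (.inl v) =
      Sum.inl '' ((Finset.univ.erase v : Finset (Fin (2 * k))) : Set (Fin (2 * k))) := by
    ext x
    rw [SimpleGraph.mem_neighborSet]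
    cases x with
    | inl x => simp [eq_comm]
    | inr x => simp
  rw [h, Nat.card_image_of_injective Sum.inl_injective, Nat.card_coe_set_eq, Set.ncard_coe_finset,
    Finset.card_erase_of_mem (Finset.mem_univ v), Finset.card_univ, Fintype.card_fin]

private theorem card_inr {k : ℕ} {W : Type} (H : SimpleGraph W) (w : W) :
    Nat.card (((⊤ : SimpleGraph (Fin (2 * k))) ⊕g H).neighborSet (.inr w)) =
      Nat.card (H.neighborSet w) := by
  have h : ((⊤ : SimpleGraph (Fin (2 * k))) ⊕g H).neighborSet (.inr w) =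
      Sum.inr '' H.neighborSet w := by
    ext x
    rw [SimpleGraph.mem_neighborSet]
    cases x with
    | inl x => simp
    | inr x => simp
  rw [h, Nat.card_image_of_injective Sum.inr_injective]

open Classical in
theorem result (k : ℕ) (hk : 2 ≤ k) (W : Type) [Fintype W] (H : SimpleGraph W) (hH : H ≠ ⊥)
    (hev : ∀ w, Even (H.degree w)) (hdeg : ∀ w, H.degree w < 2 * k) :
    let G : SimpleGraph (Fin (2 * k) ⊕ W) := (⊤ : SimpleGraph (Fin (2 * k))) ⊕g H
    (vodd G : ℚ) / 2 = k ∧ (⌈((G.maxDegree : ℚ) + 1) / 2⌉ : ℚ) = k ∧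
      max ((vodd G : ℚ) / 2) (⌈((G.maxDegree : ℚ) + 1) / 2⌉ : ℚ) < p2 G := by
  intro G
  have hl : ∀ v, Nat.card (G.neighborSet (.inl v)) = 2 * k - 1 := card_inl H
  have hr : ∀ w, Nat.card (G.neighborSet (.inr w)) = Nat.card (H.neighborSet w) := card_inr H
  -- the number of vertices of odd degree
  have h1 : vodd G = 2 * k := by
    have e : {v : Fin (2 * k) ⊕ W // Odd (Nat.card (G.neighborSet v))} ≃ Fin (2 * k) := by
      refine Equiv.symm (Equiv.ofBijective (fun v => ⟨.inl v, ?_⟩) ⟨?_, ?_⟩)
      · rw [hl, Nat.odd_iff]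
        omega
      · intro v w h
        simpa using h
      · rintro ⟨v | w, h⟩
        · exact ⟨v, rfl⟩
        · exfalso
          rw [hr, ← deg_eq, ← Nat.not_even_iff_odd] at h
          exact h (hev w)
    rw [vodd, Nat.card_congr e, Nat.card_eq_fintype_card, Fintype.card_fin]
  -- the maximum degree
  have h2 : G.maxDegree = 2 * k - 1 := by
    apply le_antisymm
    · apply SimpleGraph.maxDegree_le_of_forall_degree_le
      rintro (v | w)
      · rw [deg_eq, hl]
      · rw [deg_eq, hr, ← deg_eq]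
        have := hdeg w
        omega
    · have h5 := G.degree_le_maxDegree (.inl ⟨0, by omega⟩)
      rwa [deg_eq, hl] at h5
  have h3 : (vodd G : ℚ) / 2 = k := by
    rw [h1]
    push_cast
    ring
  have h4 : (⌈((G.maxDegree : ℚ) + 1) / 2⌉ : ℚ) = k := by
    have : ((G.maxDegree : ℚ) + 1) / 2 = (k : ℤ) := by
      rw [h2, Nat.cast_sub (by omega)]
      push_cast
      ring
    rw [this, Int.ceil_intCast]
    norm_num
  refine ⟨h3, h4, ?_⟩
  rw [h3, h4, max_self]
  -- the path odd-cover number
  have hne : {m | ∃ P : Fin m → Σ p : (Fin (2 * k) ⊕ W) × (Fin (2 * k) ⊕ W),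
      (⊤ : SimpleGraph (Fin (2 * k) ⊕ W)).Path p.1 p.2, IsPathOddCover G P}.Nonempty := by
    obtain ⟨m, P, hP⟩ := exists_cover G
    exact ⟨m, P, hP⟩
  obtain ⟨P, hP⟩ := Nat.sInf_mem hne
  have h5 : ¬ p2 G ≤ k := by
    intro hle
    obtain ⟨a, b, hab⟩ : ∃ a b, H.Adj a b := by
      by_contra hcon
      push Not at hcon
      apply hH
      ext a b
      simp [hcon a b]
    refine no_cover G (Finset.univ.map (Function.Embedding.inl : Fin (2 * k) ↪ Fin (2 * k) ⊕ W)) k
      (by omega) ?_ ?_ (a := .inr a) (b := .inr b) ?_ ?_ hle P hP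
    · rw [Finset.card_map, Finset.card_univ, Fintype.card_fin]
    · intro v hv x
      obtain ⟨v', -, rfl⟩ := Finset.mem_map.1 hv
      cases x with
      | inl x => simp [G, eq_comm]
      | inr x => simp [G]
    · simp
    · simpa [G] using hab
  exact_mod_cast not_le.1 h5

end Pool.Agent.Results.MP_31464c_co.CompletePlusEven
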